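import Pool.Agent.Q19.ExtR

set_option autoImplicit false

open Pool.Agent.Q19.Ext Pool.Agent.Q19.ExtR

namespace Pool.Agent.Results.MP_ad0d06_co.FullIsometryGroup

/-- The distinguishing extension number of the Euclidean plane under its full isometry group is
`7` (and the distinguishing number is `2`). -/
theorem result : distNum (isometryGroup EPlane) EPlane = 2 ∧
    extNum (isometryGroup EPlane) EPlane = 7 :=
  ⟨distNum_E2, extNum_E2⟩

end Pool.Agent.Results.MP_ad0d06_co.FullIsometryGroup
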